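import Mathlib
import Pool.Agent.X188.Norming

/-! A copy of the injective envelope may norm `B(H)` although the algebra does not. -/

set_option autoImplicit false
open Pool.Agent.X188 Pool.Agent.X188.MatOp Pool.Agent.X188.Norming

namespace Pool.Agent.Results.MP_dad682_an.CopyNormsNotAlgebra

/-- There are `C*`-algebras `A ⊆ B = B(H)`, `H = ℓ²(ℕ ⊕ {0,1})`, with `A` commutative and containing
the unit of `B(H)`, and a completely isometric copy `j(I)` in `B(H)` of the injective envelope
`I ⊆ B(ℓ²(ℕ))` of `A`, such that `j(I)` norms `B` but `A` does not norm `B`. -/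
theorem result : HasCounterexample (l2 J) (l2 ℕ) := by
  refine ⟨A0, ⊤, Dg ℕ, iA, jI, A0_alg, ⟨isClosed_univ, fun _ _ _ _ => trivial, fun _ _ => trivial⟩,
    le_top, ?_, ?_, fun _ => trivial, envelope, ⟨jI_CI, jI_iA⟩, norms_copy, not_norms⟩
  · have h2 : ∀ p, sym (1 : l2 J →L[ℂ] l2 J) p = 1 := by
      intro p
      change (e p : J → ℂ) p = 1
      rw [e_apply, if_pos rfl]
    have h1 : IsDg (1 : l2 J →L[ℂ] l2 J) := by
      intro x i
      rw [h2, one_mul]
      rfl
    refine ⟨h1, ?_, by rw [h2, h2]⟩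
    simp only [h2]
    exact tendsto_const_nhds
  · intro S hS T hT
    refine (hS.1.mul hT.1).1.ext (hT.1.mul hS.1).1 fun p => ?_
    rw [(hS.1.mul hT.1).2, (hT.1.mul hS.1).2, mul_comm]

end Pool.Agent.Results.MP_dad682_an.CopyNormsNotAlgebra
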